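import Pool.Agent.Helper76.LD6.Pc
import Pool.Agent.Helper17.LD6.H1
import Pool.Agent.Helper36.LD5.FPA
import Pool.Agent.Helper41.LD7.Defs

/-!
# Project LD7: `test_few`, the children on which the test is not constant
-/

set_option autoImplicit false

namespace Pool.Agent.Helper67.LD7

open Set MeasureTheory Filter Topology
open Pool.Agent.Helper41.LD (av var haar Kk)
open Pool.Agent.Helper41.LD4 (A M W Pot NB NBg)
open Pool.Agent.Helper41.LD5 (fp pwf)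
open Pool.Agent.Helper41.LD6 (hr vr lv Qs vq lev Lv NR6 Gr Wq bx)
open Pool.Agent.Helper41.LD7
open Pool.Agent.Helper76.LD6 (brk few6)
open Pool.Agent.Helper17.LD6 (hr_gr)
open Pool.Agent.Helper36.LD5 (fp_pos fp_nonneg fp_mono fp_step pwf_deriv)

variable {F : Pm} {K : ℕ} {a₀ ℓst a ℓ x : ℝ} {u : ℕ × (Fin (F.d + 1) → ℕ)}

private theorem fp_le {A₀ x : ℝ} {P n n' : ℕ} (hA : 0 < A₀) (hP : 1 ≤ P) (hx : 1 ≤ x) (hnn : n ≤ n') :
    fp A₀ P n x ≤ fp A₀ P n' x := by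
  refine le_trans ?_ (fp_step hA hP hx le_rfl hnn)
  refine le_mul_of_one_le_right (fp_nonneg hA (by linarith)) (one_le_pow₀ ?_)
  exact Real.one_le_rpow hx (by positivity)

private theorem pwf_cont (A₀ : ℝ) (c : ℝ → ℝ) (P n : ℕ) : ContinuousOn (pwf A₀ c P n) (Ioi 0) :=
  fun _ hx => (pwf_deriv c hx).continuousAt.continuousWithinAt

private theorem pwf_mono {A₀ x y : ℝ} {c : ℝ → ℝ} {P n : ℕ} (hA : 0 < A₀) (hx : 0 < x) (hxy : x ≤ y) :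
    pwf A₀ c P n x ≤ pwf A₀ c P n y := by
  unfold pwf
  have := Real.rpow_le_rpow hx.le hxy (z := (n : ℝ) / P) (by positivity)
  have := mul_le_mul_of_nonneg_left this hA.le
  linarith

private theorem pwf_sub {A₀ x y : ℝ} {c : ℝ → ℝ} {P n : ℕ} (hA : 0 < A₀) (hP : 1 ≤ P) (hn : P ≤ n) (hx : 0 < x)
    (hxy : x ≤ y) : pwf A₀ c P n y - pwf A₀ c P n x ≤ fp A₀ P n y * (y - x) := by
  rcases hxy.eq_or_lt with h | h
  · simp [h]
  · obtain ⟨z, hz, hz'⟩ := exists_hasDerivAt_eq_slope (pwf A₀ c P n) (fp A₀ P n) h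
      ((pwf_cont A₀ c P n).mono fun z hz => lt_of_lt_of_le hx hz.1)
      (fun z hz => pwf_deriv c (hx.trans hz.1))
    have e1 : 0 < y - x := by linarith
    have e2 : pwf A₀ c P n y - pwf A₀ c P n x = fp A₀ P n z * (y - x) := by
      rw [hz']
      field_simp
    rw [e2]
    exact mul_le_mul_of_nonneg_right (fp_mono hA hP hn (hx.trans hz.1) hz.2.le) e1.le

/-- the start time is not smaller than `P` -/
private theorem P_le_n₀ (hF : F.Ok) (hK : F.Big K) (S : F.St K a₀ ℓst) : F.P ≤ F.n₀ K a₀ ℓst := by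
  have ha : 1 < a₀ := lt_of_lt_of_le hF.h1 S.lo
  have ha0 : 0 < a₀ := by linarith
  have hP0 : (0 : ℝ) < F.P := by exact_mod_cast hF.hP
  have hℓ1 : ℓst ≤ 1 := by
    have e1 : (1 : ℝ) ≤ 2 ^ (K ^ 4) := one_le_pow₀ (by norm_num)
    have e2 := mul_le_mul_of_nonneg_left e1 S.pos.le
    linarith [S.sm]
  have hne : ∃ n : ℕ, F.Th K ≤ fp F.A₀ F.P n a₀ * ℓst := by
    have hy : 1 < a₀ ^ (1 / (F.P : ℝ)) := Real.one_lt_rpow ha (by positivity)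
    have h1 : 0 < fp F.A₀ F.P 1 a₀ * ℓst := mul_pos (fp_pos hF.hA hF.hP le_rfl ha0) S.pos
    obtain ⟨m, hm⟩ := pow_unbounded_of_one_lt (F.Th K / (fp F.A₀ F.P 1 a₀ * ℓst)) hy
    refine ⟨1 + m, ?_⟩
    have e1 := fp_step hF.hA hF.hP ha.le le_rfl (Nat.le_add_right 1 m) (A₀ := F.A₀) (P := F.P)
    rw [Nat.add_sub_cancel_left] at e1
    rw [div_lt_iff₀ h1] at hm
    calc F.Th K ≤ (a₀ ^ (1 / (F.P : ℝ))) ^ m * (fp F.A₀ F.P 1 a₀ * ℓst) := hm.le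
      _ = fp F.A₀ F.P 1 a₀ * (a₀ ^ (1 / (F.P : ℝ))) ^ m * ℓst := by ring
      _ ≤ _ := mul_le_mul_of_nonneg_right e1 S.pos.le
  have hsp : F.Th K ≤ fp F.A₀ F.P (F.n₀ K a₀ ℓst) a₀ * ℓst := Nat.sInf_mem hne
  by_contra hlt
  rw [not_le] at hlt
  have h2 : fp F.A₀ F.P (F.n₀ K a₀ ℓst) a₀ ≤ 2 ^ F.X := by
    refine le_trans ?_ hF.hA1
    have e1 : ((F.n₀ K a₀ ℓst : ℕ) : ℝ) / F.P ≤ 1 := by
      rw [div_le_one hP0]
      exact_mod_cast hlt.le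
    have e2 : a₀ ^ (((F.n₀ K a₀ ℓst : ℕ) : ℝ) / F.P - 1) ≤ 1 :=
      Real.rpow_le_one_of_one_le_of_nonpos ha.le (by linarith)
    have e3 : 0 ≤ ((F.n₀ K a₀ ℓst : ℕ) : ℝ) / F.P := by positivity
    unfold fp
    calc F.A₀ * (((F.n₀ K a₀ ℓst : ℕ) : ℝ) / F.P) * a₀ ^ (((F.n₀ K a₀ ℓst : ℕ) : ℝ) / F.P - 1)
        ≤ F.A₀ * 1 * 1 := by
          refine mul_le_mul (mul_le_mul_of_nonneg_left e1 hF.hA.le) e2 (by positivity) ?_
          have := hF.hA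
          linarith
      _ = F.A₀ := by ring
  have h3 : (2 : ℝ) ^ (F.X + 1) ≤ F.Th K := by
    unfold Pm.Th
    refine pow_le_pow_right₀ (by norm_num) ?_
    have e1 : F.Z ≤ F.Z ^ 4 := Nat.le_self_pow (by norm_num) _
    have e2 : F.Z ≤ K := e1.trans hK
    have e3 : F.X + 1 ≤ F.Z := by
      have e31 : 1 ≤ F.C₂ + F.R + F.t * F.Gp + F.D' + 10 := Nat.le_add_left 1 _
      have e32 : F.X + 1 ≤ 1000 * (F.X + 1) := Nat.le_mul_of_pos_left _ (by norm_num)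
      exact e32.trans (Nat.le_mul_of_pos_right _ e31)
    have e4 : 1 ≤ F.C₁ := Nat.le_add_left 1 (F.C₀ + 19)
    have e5 : K ≤ F.E K := Nat.le_mul_of_pos_left K (Nat.succ_pos _)
    exact (e3.trans e2).trans (e5.trans (Nat.le_mul_of_pos_left _ e4))
  have h4 : fp F.A₀ F.P (F.n₀ K a₀ ℓst) a₀ * ℓst ≤ 2 ^ F.X := by
    refine (mul_le_mul_of_nonneg_right h2 S.pos.le).trans ?_
    exact mul_le_of_le_one_right (by positivity) hℓ1
  have h5 : (0 : ℝ) < 2 ^ F.X := by positivity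
  rw [pow_succ] at h3
  linarith

open Classical in
/-- the children on which the test is not constant: `brk` for each `U (t + i)`, `few6` -/
theorem test_few (hF : F.Ok) (hK : F.Big K) (S : F.St K a₀ ℓst) (hℓ : 0 < ℓ) (h1 : a₀ ≤ a) (h2 : a + ℓ ≤ a₀ + ℓst) {t : ℕ}
    (ht2 : t < 2 ^ (2 * K)) (ht : F.V K a₀ ℓst (t + F.d) (a + ℓ) * ℓ ≤ 2 ^ ((F.C₂ + 1) * F.E K)) (hu : u ∈ F.Is K) :
    (((Finset.range (2 ^ (K ^ 3))).filter fun b : ℕ => ¬ ∃ v : ℝ, ∀ x ∈ Ioo (a + b * (ℓ / (2 ^ (K ^ 3) : ℕ)))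
        (a + (b + 1) * (ℓ / (2 ^ (K ^ 3) : ℕ))), F.G K a₀ ℓst u t x = v).card : ℝ) ≤ 2 ^ ((F.C₂ + 3) * F.E K) := by
  have ha₀ : 0 < a₀ := by linarith [hF.h1, S.lo]
  have ha : 0 < a := by linarith
  have hab : a ≤ a + ℓ := by linarith
  have hn₀ : F.P ≤ F.n₀ K a₀ ℓst := P_le_n₀ hF hK S
  have hq : ∀ i, u.2 i < 2 ^ K := by
    intro i
    have h3 := (Finset.mem_filter.1 (Finset.mem_product.1 hu).2).1
    rw [Fintype.mem_piFinset] at h3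
    exact Finset.mem_range.1 (h3 i)
  have hbrk : ∀ i : Fin (F.d + 1), ∃ Si : Finset ℝ,
      (Si.card : ℝ) ≤ ((2 ^ K : ℕ) : ℝ) * (F.U K a₀ ℓst (t + i) (a + ℓ) - F.U K a₀ ℓst (t + i) a) + 1 ∧
      ∀ x ∈ Icc a (a + ℓ), ∀ y ∈ Icc a (a + ℓ), x ≤ y → (∀ z ∈ Si, z ∉ Ioc x y) →
        ⌊((2 ^ K : ℕ) : ℝ) * F.U K a₀ ℓst (t + i) x⌋ = ⌊((2 ^ K : ℕ) : ℝ) * F.U K a₀ ℓst (t + i) y⌋ := by
    intro i
    refine brk hab ((pwf_cont _ _ _ _).mono fun x hx => lt_of_lt_of_le ha hx.1) ?_ _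
    intro x hx y _ hxy
    exact pwf_mono hF.hA (lt_of_lt_of_le ha hx.1) hxy
  choose Si hSi hSi' using hbrk
  set SS : Finset ℝ := Finset.univ.biUnion Si with hSS
  have hf : ∀ x ∈ Icc a (a + ℓ), ∀ y ∈ Icc a (a + ℓ), x ≤ y → (∀ z ∈ SS, z ∉ Ioc x y) →
      F.G K a₀ ℓst u t x = F.G K a₀ ℓst u t y := by
    intro x hx y hy hxy hz
    unfold Pm.G GQ
    split_ifs with hlt
    · refine Finset.prod_congr rfl fun i _ => ?_
      exact (hr_gr (hq i)).grid _ _ (hSi' i x hx y hy hxy fun z hz' =>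
        hz z (Finset.mem_biUnion.2 ⟨i, Finset.mem_univ i, hz'⟩))
    · rfl
  have h3 := few6 hℓ SS hf (B := 2 ^ (K ^ 3)) Nat.one_le_two_pow
  refine h3.trans ?_
  have hX : (1 : ℝ) ≤ (2 : ℝ) ^ K * 2 ^ ((F.C₂ + 1) * F.E K) := by
    have e1 : (1 : ℝ) ≤ (2 : ℝ) ^ K := one_le_pow₀ (by norm_num)
    have e2 : (1 : ℝ) ≤ (2 : ℝ) ^ ((F.C₂ + 1) * F.E K) := one_le_pow₀ (by norm_num)
    nlinarith
  have h4 : ∀ i, ((Si i).card : ℝ) ≤ 2 * ((2 : ℝ) ^ K * 2 ^ ((F.C₂ + 1) * F.E K)) := by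
    intro i
    have e1 : F.U K a₀ ℓst (t + i) (a + ℓ) - F.U K a₀ ℓst (t + i) a ≤
        F.V K a₀ ℓst (t + i) (a + ℓ) * (a + ℓ - a) :=
      pwf_sub hF.hA hF.hP (by omega) ha hab
    have e2 : F.V K a₀ ℓst (t + i) (a + ℓ) ≤ F.V K a₀ ℓst (t + F.d) (a + ℓ) :=
      fp_le hF.hA hF.hP (by linarith [hF.h1, S.lo]) (by have := i.2; omega)
    have e3 : F.U K a₀ ℓst (t + i) (a + ℓ) - F.U K a₀ ℓst (t + i) a ≤ 2 ^ ((F.C₂ + 1) * F.E K) := by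
      refine e1.trans ?_
      rw [add_sub_cancel_left]
      exact (mul_le_mul_of_nonneg_right e2 hℓ.le).trans ht
    have e4 : ((2 ^ K : ℕ) : ℝ) = (2 : ℝ) ^ K := by push_cast; rfl
    have e5 := hSi i
    rw [e4] at e5
    have e6 : (2 : ℝ) ^ K * (F.U K a₀ ℓst (t + i) (a + ℓ) - F.U K a₀ ℓst (t + i) a) ≤
        (2 : ℝ) ^ K * 2 ^ ((F.C₂ + 1) * F.E K) := mul_le_mul_of_nonneg_left e3 (by positivity)
    linarith
  have h5 : (SS.card : ℝ) ≤ (F.d + 1) * (2 * ((2 : ℝ) ^ K * 2 ^ ((F.C₂ + 1) * F.E K))) := by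
    have e1 : (SS.card : ℝ) ≤ ∑ i, ((Si i).card : ℝ) := by
      exact_mod_cast Finset.card_biUnion_le
    refine e1.trans ((Finset.sum_le_sum fun i _ => h4 i).trans (le_of_eq ?_))
    rw [Finset.sum_const, Finset.card_univ, Fintype.card_fin, nsmul_eq_mul]
    push_cast
    ring
  refine h5.trans ?_
  have hK1 : 1 ≤ K := by
    have e1 : 0 < F.Z := by
      unfold Pm.Z
      positivity
    exact le_trans (Nat.one_le_pow 4 F.Z e1) hK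
  have h6 : F.d + 2 + K ≤ 2 * F.E K := by
    unfold Pm.E
    nlinarith
  have h7 : ((F.d : ℝ) + 1) ≤ 2 ^ (F.d + 1) := by
    have : F.d + 1 < 2 ^ (F.d + 1) := Nat.lt_two_pow_self
    exact_mod_cast this.le
  calc ((F.d : ℝ) + 1) * (2 * ((2 : ℝ) ^ K * 2 ^ ((F.C₂ + 1) * F.E K)))
      ≤ 2 ^ (F.d + 1) * (2 * ((2 : ℝ) ^ K * 2 ^ ((F.C₂ + 1) * F.E K))) :=
        mul_le_mul_of_nonneg_right h7 (by positivity)
    _ = 2 ^ (F.d + 2 + K) * 2 ^ ((F.C₂ + 1) * F.E K) := by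
        rw [show F.d + 2 + K = (F.d + 1) + 1 + K by ring, pow_add, pow_add, pow_one]
        ring
    _ ≤ 2 ^ (2 * F.E K) * 2 ^ ((F.C₂ + 1) * F.E K) :=
        mul_le_mul_of_nonneg_right (pow_le_pow_right₀ (by norm_num) h6) (by positivity)
    _ = 2 ^ ((F.C₂ + 3) * F.E K) := by
        rw [← pow_add]
        congr 1
        ring

end Pool.Agent.Helper67.LD7
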